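import Pool.Agent.Helper76.ND.StE

/-!
# Project ND, module Bn: bad numbers are rare
-/

set_option autoImplicit false

noncomputable section

namespace Pool.Agent.Helper39.ND

open Pool.Agent.Helper76.ND Finset

theorem wd_length_Bn (t N : ℕ) : (wd t N).length = t := by
  induction t with
  | zero => rfl
  | succ t ih => rw [wd, List.length_cons, ih]

theorem hBn (hCy : StCy) (hBd : StBd) : StBn := by
  classical
  intro n t D ht htn hD
  have h1 : ((Icc 1 n).filter (fun N => ¬ Gd D (wd t N))).card ≤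
      ((W t).filter (fun l => ¬ Gd D l)).card * (n / 2 ^ t + 1) := by
    rw [mul_comm]
    refine card_le_mul_card_image_of_maps_to (f := fun N => wd t N) ?_ (n / 2 ^ t + 1) ?_
    · intro N hN
      rw [mem_filter] at hN ⊢
      refine ⟨?_, hN.2⟩
      rw [mem_W]
      exact wd_length_Bn t N
    · intro w _
      refine le_trans (card_le_card ?_) (hCy t n w)
      intro N hN
      rw [mem_filter, mem_filter] at hN
      rw [mem_filter]
      exact ⟨hN.1.1, hN.2⟩
  have h2 := hBd t D ht hD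
  have hp : (0:ℝ) < 2 ^ t := by positivity
  have h3 : ((n / 2 ^ t + 1 : ℕ) : ℝ) ≤ 2 * n / 2 ^ t := by
    have h4 : ((n / 2 ^ t : ℕ) : ℝ) ≤ (n : ℝ) / 2 ^ t := by
      have := @Nat.cast_div_le ℝ _ _ _ n (2 ^ t)
      simpa using this
    have h5 : (1:ℝ) ≤ (n : ℝ) / 2 ^ t := by
      rw [le_div_iff₀ hp, one_mul]
      exact_mod_cast htn
    push_cast
    calc ((n / 2 ^ t : ℕ) : ℝ) + 1 ≤ (n : ℝ) / 2 ^ t + (n : ℝ) / 2 ^ t := add_le_add h4 h5
      _ = 2 * n / 2 ^ t := by ring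
  have h6 : (((Icc 1 n).filter (fun N => ¬ Gd D (wd t N))).card : ℝ) ≤
      (((W t).filter (fun l => ¬ Gd D l)).card : ℝ) * ((n / 2 ^ t + 1 : ℕ) : ℝ) := by
    exact_mod_cast h1
  have h7 : (0:ℝ) ≤ 2 * t * 2 ^ t * Real.exp (-(2 * D ^ 2 / t)) := by positivity
  calc (((Icc 1 n).filter (fun N => ¬ Gd D (wd t N))).card : ℝ)
      ≤ (((W t).filter (fun l => ¬ Gd D l)).card : ℝ) * ((n / 2 ^ t + 1 : ℕ) : ℝ) := h6
    _ ≤ (2 * t * 2 ^ t * Real.exp (-(2 * D ^ 2 / t))) * (2 * n / 2 ^ t) :=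
        mul_le_mul h2 h3 (Nat.cast_nonneg _) h7
    _ = 4 * n * t * Real.exp (-(2 * D ^ 2 / t)) := by
        field_simp
        ring

end Pool.Agent.Helper39.ND
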