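import Pool.Agent.Helper76.ND.StE

/-!
# Project ND, module Dr: drift of the constant term
-/

set_option autoImplicit false

noncomputable section

namespace Pool.Agent.Helper39.ND

open Pool.Agent.Helper76.ND Finset

theorem Gd_tail {D : ℝ} {x : Bool} {l : List Bool} (h : Gd D (x :: l)) : Gd D l := by
  intro j hj
  have h1 := h j (by rw [List.length_cons]; omega)
  have h2 : (x :: l).length - j = (l.length - j) + 1 := by
    rw [List.length_cons]
    omega
  rw [h2, List.drop_succ_cons] at h1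
  exact h1

theorem two_pow_le_Dr {D : ℝ} {l : List Bool} (h : Gd D l) :
    (2:ℝ) ^ l.length ≤ 3 ^ hd l * ((2 / Real.sqrt 3) ^ l.length * (3 : ℝ) ^ D) := by
  have h1 := h l.length le_rfl
  rw [Nat.sub_self, List.drop_zero, abs_le] at h1
  have h2 : (l.length : ℝ) / 2 ≤ (hd l : ℝ) + D := by linarith [h1.1]
  have s3 : (0:ℝ) < Real.sqrt 3 := by positivity
  have h3 : (Real.sqrt 3) ^ l.length ≤ 3 ^ hd l * (3:ℝ) ^ D := by
    rw [← Real.rpow_natCast (3:ℝ) (hd l), ← Real.rpow_add (by norm_num)]
    rw [Real.sqrt_eq_rpow, ← Real.rpow_natCast, ← Real.rpow_mul (by norm_num)]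
    apply Real.rpow_le_rpow_of_exponent_le (by norm_num)
    linarith
  calc (2:ℝ) ^ l.length = (2 / Real.sqrt 3) ^ l.length * (Real.sqrt 3) ^ l.length := by
        rw [← mul_pow, div_mul_cancel₀ _ s3.ne']
    _ ≤ (2 / Real.sqrt 3) ^ l.length * (3 ^ hd l * (3:ℝ) ^ D) :=
        mul_le_mul_of_nonneg_left h3 (by positivity)
    _ = 3 ^ hd l * ((2 / Real.sqrt 3) ^ l.length * (3 : ℝ) ^ D) := by ring

theorem hDr : StDr := by
  intro l D hD h
  have s3 : (0:ℝ) < Real.sqrt 3 := by positivity
  have hr : (1:ℝ) ≤ 2 / Real.sqrt 3 := by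
    rw [le_div_iff₀ s3, one_mul]
    rw [Real.sqrt_le_left (by norm_num)]
    norm_num
  set r : ℝ := 2 / Real.sqrt 3 with hrd
  have h3D : (0:ℝ) < (3:ℝ) ^ D := by positivity
  induction l with
  | nil => simp
  | cons x l ih =>
    have ih' := ih (Gd_tail h)
    have hstep : (l.length : ℝ) * r ^ l.length ≤ l.length * r ^ (l.length + 1) := by
      apply mul_le_mul_of_nonneg_left _ (Nat.cast_nonneg _)
      exact pow_le_pow_right₀ hr (Nat.le_succ _)
    have hrp : (0:ℝ) ≤ r ^ (l.length + 1) := by positivity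
    cases x with
    | false =>
      rw [cc_false, hd_false, List.length_cons]
      refine ih'.trans ?_
      apply mul_le_mul_of_nonneg_left _ (by positivity)
      apply mul_le_mul_of_nonneg_right _ h3D.le
      push_cast
      nlinarith
    | true =>
      have h2 := two_pow_le_Dr h
      rw [hd_true, List.length_cons] at h2
      rw [cc_true, hd_true, List.length_cons]
      push_cast
      have h4 : (2:ℝ) ^ l.length ≤ 2 ^ (l.length + 1) :=
        pow_le_pow_right₀ (by norm_num) (Nat.le_succ _)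
      have h5 : 3 * (cc l : ℝ) ≤ 3 ^ (hd l + 1) * (l.length * r ^ (l.length + 1) * 3 ^ D) := by
        calc 3 * (cc l : ℝ) ≤ 3 * (3 ^ hd l * (l.length * r ^ l.length * 3 ^ D)) := by linarith
          _ = 3 ^ (hd l + 1) * (l.length * r ^ l.length * 3 ^ D) := by ring
          _ ≤ 3 ^ (hd l + 1) * (l.length * r ^ (l.length + 1) * 3 ^ D) := by
              apply mul_le_mul_of_nonneg_left _ (by positivity)
              exact mul_le_mul_of_nonneg_right hstep h3D.le
      calc (2:ℝ) ^ l.length + 3 * (cc l : ℝ)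
          ≤ 3 ^ (hd l + 1) * (r ^ (l.length + 1) * 3 ^ D) +
            3 ^ (hd l + 1) * (l.length * r ^ (l.length + 1) * 3 ^ D) := by linarith
        _ = 3 ^ (hd l + 1) * (((l.length : ℝ) + 1) * r ^ (l.length + 1) * 3 ^ D) := by ring

end Pool.Agent.Helper39.ND
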